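import Pool.Agent.Helper87_UT.Stmts
import Pool.Agent.Helper2_XG.Num

/-!
# UT: SIZ, CPS, MP1, letters
-/

set_option autoImplicit false

namespace Pool.Agent.UT.H2

open Turing Computability Function Pool.Agent.H2XG
open Pool.Agent.UT (ViewLetter MoveLetter ILetter View Move Inst VInst encPair SizStmt CpsStmt Mp1Stmt)
open Pool.Agent.Helper53_CookLevin (size)

theorem siz : SizStmt := by
  intro α β A B ea eb f ⟨hf⟩
  obtain ⟨c, hc⟩ := outputs_length hf.tm
  refine ⟨Polynomial.X + (c : Polynomial ℕ) * hf.time, fun x => ?_⟩
  have h := hc _ _ _ (hf.outputsFun x)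
  simpa using h

theorem cps : CpsStmt := by
  intro α β γ A B C ea eb ec f g ⟨hf⟩ ⟨hg⟩
  exact Helper32_Poly.TM2ComputableInPolyTime.comp hf hg

theorem mp1 : Mp1Stmt := by
  classical
  intro α β A B D _ _ ea eb f hf
  have : Nonempty (Fintype A) := by
    obtain ⟨hf⟩ := hf
    exact ⟨@Fintype.ofEquiv _ _ hf.tm.Γk₀Fin hf.inputAlphabet⟩
  obtain ⟨_⟩ := this
  let C := Option ((A ⊕ B) ⊕ D)
  let iA : A → C := fun a => some (.inl (.inl a))
  let iB : B → C := fun b => some (.inl (.inr b))
  let iD : D → C := fun d => some (.inr d)
  have hiA : Injective iA :=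
    (Option.some_injective _).comp (Sum.inl_injective.comp Sum.inl_injective)
  have hiB : Injective iB :=
    (Option.some_injective _).comp (Sum.inl_injective.comp Sum.inr_injective)
  have hiD : Injective iD := (Option.some_injective _).comp Sum.inr_injective
  have hBD : ∀ b d, iB b ≠ iD d := by
    intro b d h
    exact Sum.inl_ne_inr (Option.some.inj h)
  obtain ⟨F, hF, hF'⟩ := exists_total (C := C) hf hiA iB
  let P1 : C → Bool := fun c => match c with
    | some (.inl _) => true
    | _ => false
  let P2 : C → Bool := fun c => match c with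
    | some (.inr _) => true
    | _ => false
  have h1 : FP (C := C) 1 (fun ρ => F ((ρ 0).filter P1) ++ (ρ 0).filter P2) :=
    (FP.call hF ((FP.var 0).filter P1)).append ((FP.var 0).filter P2)
  refine FP.toPT h1 (iA := Sum.elim iA iD) (iB := Sum.elim iB iD) ?_ ?_
  · rintro (x | x) (y | y) h
    · exact congrArg _ (hiB h)
    · exact absurd h (hBD x y)
    · exact absurd h.symm (hBD y x)
    · exact congrArg _ (hiD h)
  · rintro ⟨a, w⟩
    have e1 : (((encPair ea (id : List D → List D)) (a, w)).map (Sum.elim iA iD)).filter P1 =
        (ea a).map iA := by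
      unfold encPair
      simp [List.filter_append, List.filter_map, Function.comp_def, P1, iA, iD]
    have e2 : (((encPair ea (id : List D → List D)) (a, w)).map (Sum.elim iA iD)).filter P2 =
        w.map iD := by
      unfold encPair
      simp [List.filter_append, List.filter_map, Function.comp_def, P2, iA, iD]
    simp only [Matrix.cons_val_zero]
    rw [e1, e2, hF']
    unfold encPair
    simp [Function.comp_def]

end Pool.Agent.UT.H2
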