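import Pool.Agent.Helper2_UT.Base

/-!
# UT, module RAT: rational numbers are computable
-/

set_option autoImplicit false

namespace Pool.Agent.UT.H2

open Turing Computability Function Pool.Agent.H2XG
open Pool.Agent.UT (unary UnaryComputable RatStmt)

theorem floor_rat (q : ℚ) (hq : 0 ≤ q) (n : ℕ) :
    ⌊(q : ℝ) * n⌋₊ = q.num.toNat * n / q.den := by
  have h1 : (q : ℝ) = (q.num.toNat : ℝ) / (q.den : ℝ) := by
    have h2 : ((q.num.toNat : ℤ) : ℝ) = (q.num : ℝ) := by
      rw [Int.toNat_of_nonneg (Rat.num_nonneg.2 hq)]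
    rw [← Int.cast_natCast (R := ℝ) q.num.toNat, h2]
    exact Rat.cast_def q
  rw [h1, div_mul_eq_mul_div]
  have h5 : ((q.num.toNat : ℝ) * n) = ((q.num.toNat * n : ℕ) : ℝ) := by push_cast; rfl
  rw [h5, Nat.floor_div_eq_div]

theorem rat : RatStmt := by
  intro q hq
  unfold UnaryComputable
  have h : FPN (C := Unit) 1 (fun ρ => q.num.toNat * (ρ 0).length / q.den) :=
    ((FPN.const _).mul (FPN.var 0)).div (FPN.const _)
  refine FP.toPT h.word (iA := id) (iB := id) injective_id (fun n => ?_)
  unfold unary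
  simp only [List.map_id, Matrix.cons_val_zero, List.length_replicate]
  rw [floor_rat q hq]

end Pool.Agent.UT.H2
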