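import Pool.Agent.Helper2_UT.Base

/-!
# UT, module SIM: the simulation runs in polynomial time
-/

set_option autoImplicit false

namespace Pool.Agent.UT.H2

open Turing Computability Function Pool.Agent.H2XG
open Pool.Agent.UT (ViewLetter MoveLetter ILetter View Move Inst VInst encPair val play SimStmt)
open Pool.Agent.Helper53_CookLevin (size)

/-- letters of the simulation -/
inductive SL
  | inst (x : ILetter)
  | coin (b : Bool)
  | view (x : ViewLetter)
  | move (x : MoveLetter)
  deriving DecidableEq

/-- the letters of the simulation as a sum -/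
def SL.toSum : SL → (ILetter ⊕ Bool) ⊕ (ViewLetter ⊕ MoveLetter)
  | .inst x => .inl (.inl x)
  | .coin x => .inl (.inr x)
  | .view x => .inr (.inl x)
  | .move x => .inr (.inr x)

/-- back -/
def SL.ofSum : (ILetter ⊕ Bool) ⊕ (ViewLetter ⊕ MoveLetter) → SL
  | .inl (.inl x) => .inst x
  | .inl (.inr x) => .coin x
  | .inr (.inl x) => .view x
  | .inr (.inr x) => .move x

instance : Fintype SL := Fintype.ofEquiv ((ILetter ⊕ Bool) ⊕ (ViewLetter ⊕ MoveLetter))
  ⟨SL.ofSum, SL.toSum, by rintro ((x | x) | (x | x)) <;> rfl, by rintro (x | x | x | x) <;> rfl⟩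

instance : Inhabited SL := ⟨.coin false⟩

/-- input word -/
def inW (I : Inst) (r : List Bool) : List SL := (I.enc).map .inst ++ r.map .coin

/-- number of letters `x` of an instance in a word -/
def cnt (x : ILetter) (w : List SL) : ℕ := (w.filter (fun c => decide (c = .inst x))).length

/-- matrix letters -/
def isBit : SL → Bool
  | .inst (.bit _) => true
  | _ => false

/-- coins -/
def isCoin : SL → Bool
  | .coin _ => true
  | _ => false

section Words

variable {m : ℕ} {W : (Fin m → List SL) → List SL} (hW : FP m W)

include hW in
theorem cnt_fp (x : ILetter) : FPN m (fun ρ => cnt x (W ρ)) :=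
  FPN.len (hW.filter _)

end Words

theorem cnt_inW (I : Inst) (r : List Bool) : cnt .a (inW I r) = I.a ∧ cnt .b (inW I r) = I.b ∧
    cnt .q (inW I r) = I.q ∧ cnt .s (inW I r) = I.s ∧ cnt .t (inW I r) = I.t := by
  unfold cnt inW Inst.enc
  refine ⟨?_, ?_, ?_, ?_, ?_⟩ <;>
  · simp [List.filter_append, List.filter_map, Function.comp_def]

theorem bits_inW (I : Inst) (r : List Bool) : (inW I r).filter isBit =
    I.A.map (fun b => .inst (.bit b)) := by
  unfold inW Inst.enc
  simp [List.filter_append, List.filter_map, Function.comp_def, isBit]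

theorem coins_inW (I : Inst) (r : List Bool) : (inW I r).filter isCoin = r.map .coin := by
  unfold inW Inst.enc
  simp [List.filter_append, List.filter_map, Function.comp_def, isCoin]

/-! ### the unit of a sample -/

theorem val_eq_sum (l : List Bool) : ∀ n, l.length ≤ n →
    val l = ∑ k ∈ Finset.range n, (l.getD k false).toNat * 2 ^ k := by
  induction l with
  | nil => intro n _; simp [val]
  | cons b l ih =>
    intro n hn
    obtain ⟨n, rfl⟩ : ∃ k, n = k + 1 := ⟨n - 1, by simp at hn; omega⟩
    rw [val, ih n (by simpa using hn), Finset.sum_range_succ']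
    simp only [List.getD_cons_succ, List.getD_cons_zero, pow_succ, pow_zero, mul_one]
    rw [Finset.mul_sum, add_comm]
    congr 1
    exact Finset.sum_congr rfl fun k _ => by ring

theorem unit_eq (I : Inst) (r : List Bool) (i : ℕ) :
    I.unit r i = ∑ k ∈ Finset.range I.s, (r.getD (I.q + i * I.s + k) false).toNat * 2 ^ k := by
  unfold Inst.unit
  rw [val_eq_sum _ I.s (by rw [List.length_take]; exact min_le_left _ _)]
  refine Finset.sum_congr rfl fun k hk => ?_
  have hk := Finset.mem_range.1 hk
  congr 2
  rw [List.getD_eq_getElem?_getD, List.getD_eq_getElem?_getD, List.getElem?_take_of_lt hk,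
    List.getElem?_drop]

/-- the unit, clipped -/
def unitW (w : List SL) (i : ℕ) : ℕ :=
  ∑ k ∈ Finset.range (cnt .s w),
    (decide (((w.filter isCoin))[cnt .q w + i * cnt .s w + k]? = some (.coin true))).toNat *
      min (2 ^ k) (w.filter isBit).length

theorem unitW_inW (I : Inst) (h : I.A.length = 4 ^ I.s) (r : List Bool) (i : ℕ) :
    unitW (inW I r) i = I.unit r i := by
  obtain ⟨-, -, e3, e4, -⟩ := cnt_inW I r
  unfold unitW
  rw [unit_eq, e3, e4, bits_inW, coins_inW, List.length_map, h]
  refine Finset.sum_congr rfl fun k hk => ?_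
  have hk := Finset.mem_range.1 hk
  congr 1
  · rw [List.getElem?_map, List.getD_eq_getElem?_getD]
    rcases r[I.q + i * I.s + k]? with _ | _ | _ <;> simp
  · refine min_eq_left ?_
    calc 2 ^ k ≤ 2 ^ I.s := Nat.pow_le_pow_right (by norm_num) hk.le
      _ ≤ 4 ^ I.s := Nat.pow_le_pow_left (by norm_num) _

theorem unitW_fp {m : ℕ} {W : (Fin m → List SL) → List SL} (hW : FP m W)
    {i : (Fin m → List SL) → ℕ} (hi : FPN m i) : FPN m (fun ρ => unitW (W ρ) (i ρ)) := by
  refine FPN.sum (cnt_fp hW .s) (f := fun k ρ =>
    (decide ((((W ρ).filter isCoin))[cnt .q (W ρ) + i ρ * cnt .s (W ρ) + k]? =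
      some (.coin true))).toNat * min (2 ^ k) ((W ρ).filter isBit).length) ?_
  have hW' := hW.weak
  have h1 : FPN (m + 1) (fun σ : Fin (m + 1) → List SL => cnt .q (W fun i => σ i.succ) +
      i (fun i => σ i.succ) * cnt .s (W fun i => σ i.succ) + (σ 0).length) :=
    ((cnt_fp hW' .q).add (hi.weak.mul (cnt_fp hW' .s))).add (FPN.var 0)
  have h2 := FPB.get (hW'.filter isCoin) h1 (fun o => decide (o = some (SL.coin true)))
  have h3 := (FPN.ofBool h2).mul (FPN.powClip (FPN.const 2) (FPN.var 0)
    (FPN.len (hW'.filter isBit)))
  refine h3.congr fun σ => ?_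
  rw [List.length_replicate]

/-! ### toggles -/

/-- the toggle -/
def noiseW (w : List SL) (i j : ℕ) : Bool :=
  ((((w.filter isCoin).drop (cnt .q w + cnt .q w * cnt .s w +
    (min i j * cnt .q w + max i j) * cnt .t w)).take (cnt .t w)).filter
      (fun c => decide (c = .coin false))).isEmpty

theorem noiseW_inW (I : Inst) (r : List Bool) (i j : ℕ) :
    noiseW (inW I r) i j = I.noise r i j := by
  obtain ⟨-, -, e3, e4, e5⟩ := cnt_inW I r
  unfold noiseW Inst.noise
  rw [e3, e4, e5, coins_inW, ← List.map_drop, ← List.map_take]
  generalize ((r.drop (I.q + I.q * I.s + (min i j * I.q + max i j) * I.t)).take I.t) = l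
  induction l with
  | nil => rfl
  | cons b l ih =>
    rw [List.map_cons, List.all_cons, ← ih]
    cases b <;> simp

theorem noiseW_fp {m : ℕ} {W : (Fin m → List SL) → List SL} (hW : FP m W)
    {i j : (Fin m → List SL) → ℕ} (hi : FPN m i) (hj : FPN m j) :
    FPB m (fun ρ => noiseW (W ρ) (i ρ) (j ρ)) := by
  have hq := cnt_fp hW .q
  have hs := cnt_fp hW .s
  have ht := cnt_fp hW .t
  have h1 := (hq.add (hq.mul hs)).add ((((FPN.min hi hj).mul hq).add (FPN.max hi hj)).mul ht)
  have h2 := (((hW.filter isCoin).dropLen h1).takeLen ht).filter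
    (fun c => decide (c = SL.coin false))
  refine (FPB.nil h2).congr fun ρ => ?_
  rw [List.length_replicate, List.length_replicate]
  rfl

/-- the answer -/
def adjW (w : List SL) (i j : ℕ) : Bool :=
  (decide (i < cnt .q w) && (decide (j < cnt .q w) && !decide (i = j))) &&
    xor (decide ((w.filter isBit)[unitW w i * min (2 ^ cnt .s w) (w.filter isBit).length +
      unitW w j]? = some (.inst (.bit true)))) (noiseW w i j)

theorem adjW_inW (I : Inst) (h : I.A.length = 4 ^ I.s) (r : List Bool) (i j : ℕ) :
    adjW (inW I r) i j = I.adj r i j := by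
  obtain ⟨-, -, e3, e4, -⟩ := cnt_inW I r
  unfold adjW Inst.adj
  rw [noiseW_inW, unitW_inW I h, unitW_inW I h, e3, e4, bits_inW, List.length_map, h,
    min_eq_left (Nat.pow_le_pow_left (by norm_num) I.s)]
  congr 1
  · rw [Bool.eq_iff_iff]
    simp
  · congr 1
    rw [List.getElem?_map, List.getD_eq_getElem?_getD]
    rcases I.A[I.unit r i * 2 ^ I.s + I.unit r j]? with _ | _ | _ <;> simp

theorem adjW_fp {m : ℕ} {W : (Fin m → List SL) → List SL} (hW : FP m W)
    {i j : (Fin m → List SL) → ℕ} (hi : FPN m i) (hj : FPN m j) :
    FPB m (fun ρ => adjW (W ρ) (i ρ) (j ρ)) := by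
  have hq := cnt_fp hW .q
  have hs := cnt_fp hW .s
  have hb := hW.filter isBit
  have h1 := ((unitW_fp hW hi).mul (FPN.powClip (FPN.const 2) hs (FPN.len hb))).add
    (unitW_fp hW hj)
  have h2 := FPB.get hb h1 (fun o => decide (o = some (SL.inst (.bit true))))
  have h3 := ((FPB.ltN hi hq).and ((FPB.ltN hj hq).and (FPB.eqN hi hj).not)).and
    (h2.xor (noiseW_fp hW hi hj))
  refine h3.congr fun ρ => ?_
  rw [List.length_replicate]
  rfl

/-! ### the run -/

/-- the view -/
def viewW (w st : List SL) : List SL :=
  List.replicate (cnt .a w) (.view .a) ++ List.replicate (cnt .b w) (.view .b) ++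
    ((w.filter isCoin).take (cnt .q w)).map (fun c => .view (.coin (decide (c = .coin true)))) ++
    st

/-- one move -/
def stepW (NX : List SL → List SL) (w st : List SL) : List SL :=
  if decide (st.head? = some (.move (.out true))) || decide (st.head? = some (.move (.out false)))
  then st
  else
    if decide ((NX (viewW w st)).head? = some (.move (.out true))) then [.move (.out true)]
    else if decide ((NX (viewW w st)).head? = some (.move (.out false))) then [.move (.out false)]
    else st ++ (if adjW w ((NX (viewW w st)).filter (fun c => decide (c = .move .i))).length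
        ((NX (viewW w st)).filter (fun c => decide (c = .move .j))).length
      then [.view (.answer true)] else [.view (.answer false)])

theorem stepW_length (NX : List SL → List SL) (w st : List SL) :
    (stepW NX w st).length ≤ st.length + 1 := by
  unfold stepW
  split_ifs <;> simp

theorem stepW_fp {NX : List SL → List SL} (hNX : H2XG.PT NX) :
    FP 2 (fun ρ : Fin 2 → List SL => stepW NX (ρ 1) (ρ 0)) := by
  have hw : FP 2 (fun ρ : Fin 2 → List SL => ρ 1) := FP.var 1
  have hst : FP 2 (fun ρ : Fin 2 → List SL => ρ 0) := FP.var 0
  have hv : FP 2 (fun ρ : Fin 2 → List SL => viewW (ρ 1) (ρ 0)) := by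
    have h1 := (FPN.len (C := SL) ((cnt_fp hw .a).word)).word.map (fun _ => SL.view .a)
    have h2 := (FPN.len (C := SL) ((cnt_fp hw .b).word)).word.map (fun _ => SL.view .b)
    have h3 := ((hw.filter isCoin).takeLen (cnt_fp hw .q)).map
      (fun c => SL.view (.coin (decide (c = SL.coin true))))
    refine (((h1.append h2).append h3).append hst).congr fun ρ => ?_
    unfold viewW
    simp [un]
  have hn := FP.call hNX hv
  have hi := FPN.len (hn.filter (fun c => decide (c = SL.move .i)))
  have hj := FPN.len (hn.filter (fun c => decide (c = SL.move .j)))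
  have c1 := (FPB.head hst (fun o => decide (o = some (SL.move (.out true))))).or
    (FPB.head hst (fun o => decide (o = some (SL.move (.out false)))))
  exact FP.ite c1 hst (FP.ite (FPB.head hn (fun o => decide (o = some (SL.move (.out true)))))
    (FP.const _) (FP.ite (FPB.head hn (fun o => decide (o = some (SL.move (.out false)))))
    (FP.const _) (hst.append (FP.ite (adjW_fp hw hi hj) (FP.const _) (FP.const _)))))

/-- the run -/
def runW (NX : List SL → List SL) (w : List SL) : List SL :=
  (stepW NX w)^[cnt .q w] []

theorem runW_fp {NX : List SL → List SL} (hNX : H2XG.PT NX) :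
    FP 1 (fun ρ : Fin 1 → List SL => runW NX (ρ 0)) := by
  have hw : FP 1 (fun ρ : Fin 1 → List SL => ρ 0) := FP.var 0
  have h := FP.iterate (m := 1) (N := fun ρ => un (cnt .q (ρ 0))) (cnt_fp hw .q)
    (FP.const []) (F := fun ρ : Fin 2 → List SL => stepW NX (ρ 1) (ρ 0)) (stepW_fp hNX)
    (Polynomial.X) (by
      intro ρ n hn
      have h1 : ∀ n, ((fun w' => stepW NX (Matrix.vecCons w' ρ 1) (Matrix.vecCons w' ρ 0))^[n]
          ([] : List SL)).length ≤ n := by
        intro n
        induction n with
        | zero => simp
        | succ n ih =>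
          rw [Function.iterate_succ_apply']
          exact (stepW_length _ _ _).trans (Nat.add_le_add_right ih 1)
      refine (h1 n).trans (hn.trans ?_)
      rw [List.length_replicate, Polynomial.eval_X]
      unfold cnt size
      refine (List.length_filter_le _ _).trans ?_
      exact Finset.single_le_sum (f := fun i => (ρ i).length) (fun _ _ => Nat.zero_le _)
        (Finset.mem_univ 0))
  refine h.congr fun ρ => ?_
  rw [List.length_replicate]
  rfl

/-- the result of a run -/
def resW (st : List SL) : Bool := decide (st.head? = some (.move (.out true)))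

theorem iter_fixed {X : Type} (f : X → X) (x : X) (h : f x = x) : ∀ n, f^[n] x = x
  | 0 => rfl
  | n + 1 => by rw [Function.iterate_succ_apply, h, iter_fixed f x h n]

theorem run_correct {next : View → Move} {NX : List SL → List SL}
    (hNX : ∀ v : View, NX (v.enc.map .view) = (next v).enc.map .move) (I : Inst)
    (hI : I.A.length = 4 ^ I.s) (r : List Bool) : ∀ (t : ℕ) (ans : List Bool),
    resW ((stepW NX (inW I r))^[t] (ans.map fun b => .view (.answer b))) =
      play next I.a I.b (r.take I.q) (I.adj r) t ans
  | 0, ans => by
    unfold resW play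
    cases ans <;> simp
  | t + 1, ans => by
    obtain ⟨e1, e2, e3, -, -⟩ := cnt_inW I r
    have hv : viewW (inW I r) (ans.map fun b => .view (.answer b)) =
        (View.enc ⟨I.a, I.b, r.take I.q, ans⟩).map .view := by
      unfold viewW View.enc
      rw [e1, e2, e3, coins_inW]
      simp [List.map_take, Function.comp_def]
    rw [Function.iterate_succ_apply, play]
    have hst : stepW NX (inW I r) (ans.map fun b => .view (.answer b)) =
        match next ⟨I.a, I.b, r.take I.q, ans⟩ with
        | .output b => [.move (.out b)]
        | .query i j => (ans ++ [I.adj r i j]).map fun b => .view (.answer b) := by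
      unfold stepW
      rw [hv, hNX]
      rw [if_neg (by cases ans <;> simp)]
      rcases next ⟨I.a, I.b, r.take I.q, ans⟩ with ⟨i, j⟩ | b
      · have hh : ∀ b, (((Move.query i j).enc.map SL.move).head? = some (.move (.out b))) → False := by
          intro b h
          unfold Move.enc at h
          rcases i with _ | i
          · rcases j with _ | j
            · simp at h
            · simp [List.replicate_succ] at h
          · simp [List.replicate_succ] at h
        rw [if_neg (by simpa using hh true), if_neg (by simpa using hh false), adjW_inW I hI]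
        have c1 : (((Move.query i j).enc.map SL.move).filter
            (fun c => decide (c = SL.move .i))).length = i := by
          unfold Move.enc
          simp [List.filter_append, List.filter_map, Function.comp_def]
        have c2 : (((Move.query i j).enc.map SL.move).filter
            (fun c => decide (c = SL.move .j))).length = j := by
          unfold Move.enc
          simp [List.filter_append, List.filter_map, Function.comp_def]
        rw [c1, c2]
        simp only [List.map_append, List.map_cons, List.map_nil]
        congr 1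
        rcases I.adj r i j <;> rfl
      · unfold Move.enc
        cases b <;> simp
    rw [hst]
    rcases next ⟨I.a, I.b, r.take I.q, ans⟩ with ⟨i, j⟩ | b
    · exact run_correct hNX I hI r t _
    · simp only
      rw [iter_fixed _ _ (by unfold stepW; cases b <;> simp)]
      unfold resW
      cases b <;> simp

theorem sim : SimStmt := by
  intro next hnext
  have hiv : Injective SL.view := fun a b h => by injection h
  obtain ⟨NX, hNX, hNX'⟩ := exists_total (C := SL) hnext hiv SL.move
  have h1 := FP.ite (FPB.head (runW_fp hNX) (fun o => decide (o = some (SL.move (.out true)))))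
    (FP.const [SL.coin true]) (FP.const [SL.coin false])
  refine FP.toPT h1 (iA := Sum.elim SL.inst SL.coin) (iB := SL.coin)
    (fun a b h => by injection h) ?_
  rintro ⟨⟨I, hI⟩, r⟩
  have e1 : (encPair (fun I : VInst => I.1.enc) (id : List Bool → List Bool)
      (⟨I, hI⟩, r)).map (Sum.elim SL.inst SL.coin) = inW I r := by
    unfold encPair inW
    simp [Function.comp_def]
  have h2 := run_correct hNX' I hI r I.q []
  have h3 : resW (runW NX (inW I r)) = I.run next r := by
    unfold runW Inst.run
    rw [(cnt_inW I r).2.2.1]
    exact h2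
  change (if resW (runW NX ((encPair (fun I : VInst => I.1.enc) (id : List Bool → List Bool)
      (⟨I, hI⟩, r)).map (Sum.elim SL.inst SL.coin))) = true then [SL.coin true]
      else [SL.coin false]) = _
  rw [e1, h3]
  unfold encodeBool
  rcases I.run next r <;> rfl

end Pool.Agent.UT.H2
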